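import Pool.Agent.T2H35.FJT.Main

/-!
# Kernels that act on trees with commensurable stabilizers

`C` is any class of groups with the closure properties `ClosedE C` which contains the metabelian
groups (`Met C`) and the groups `F ⋊ Z` for all free groups `F` and all automorphisms of `F`
(`FbC C`). All this is published for the class of groups which satisfy the Full Farrell-Jones
Conjecture.

Let `N` be a normal subgroup of `G` with `G ⧸ N` in `C`, and let `N` act on a tree without inversions
such that all vertex stabilizers are commensurable and the orders of their finite subgroups are
bounded (for instance, `N` is the fundamental group of a finite or infinite graph of groups whose edge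
groups have finite index in the vertex groups). `G` need not act on the tree. If `Z` is a normal
subgroup of `G` with `G ⧸ Z` in `C` each of whose elements centralizes a subgroup of finite index in
each vertex stabilizer, then `G` is in `C`.

For `Z = G` the stabilizers are virtually abelian with centralizers of finite index, for instance
finite: `C` is closed under extensions whose kernel acts on a tree with finite stabilizers of bounded
order.

Outline of the proof. Put `M = N ∩ Z`. In the stabilizers `M_v` all elements have centralizers of
finite index. The rational abelianizations of the groups `M_v` are all canonically equal, so they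
patch to a homomorphism from `M` to a rational vector space; so the commutator subgroup `K` of `M` acts
with finite stabilizers of bounded order. Patching free actions of the stabilizers on a finite set,
one gets a homomorphism from `K` to a finite symmetric group which is injective on all stabilizers. The
intersection `D` of the kernels of all homomorphisms from `K` to this symmetric group acts freely on the
tree, so it is free, and it is normal in `G`; `K ⧸ D` is locally finite, `M ⧸ K` is abelian and `G ⧸ M`
embeds in `(G ⧸ N) × (G ⧸ Z)`.
-/

set_option autoImplicit false

namespace Pool.Agent.Results.MP_9d1ffa_al.CommensurableTreeKernels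

open Pool.Agent.Y110.FJ Pool.Agent.R684.FP Pool.Agent.T2H35.FJT MulAction

theorem result (C : ∀ (G : Type) [Group G], Prop) (hC : ClosedE C) (hmet : Met C) (hF : FbC C)
    (G : Type) [Group G] (N Z : Subgroup G) [N.Normal] [Z.Normal] (hN : C (G ⧸ N)) (hZ : C (G ⧸ Z))
    (V : Type) [MulAction N V] (T : SimpleGraph V) (hT : T.IsTree)
    (hadj : ∀ (x : N) (u v : V), T.Adj u v → T.Adj (x • u) (x • v))
    (hinv : ∀ (x : N) (u v : V), T.Adj u v → ¬ (x • u = v ∧ x • v = u))
    (hcom : ∀ u v : V, (stabilizer N u).relIndex (stabilizer N v) ≠ 0)
    (hcen : ∀ z ∈ Z, ∀ v : V,
      (Subgroup.centralizer {z}).relIndex ((stabilizer N v).map N.subtype) ≠ 0)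
    (m : ℕ) (hm : ∀ (v : V) (F : Subgroup N), F ≤ stabilizer N v → Finite F → Nat.card F ≤ m) :
    C G :=
  main1 hC hmet hF N Z hN hZ T hT hadj hinv hcom hcen m hm

end Pool.Agent.Results.MP_9d1ffa_al.CommensurableTreeKernels
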