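import Pool.Agent.T2H35.FJC.Main

/-!
# Kernels that are Coxeter groups of arbitrary rank

`C` is any class of groups with the closure properties `ClosedE C` which contains all Coxeter groups
with finitely many generators. Both are published for the class of groups which satisfy the Full
Farrell-Jones Conjecture (finitely generated Coxeter groups are CAT(0) groups).

Let `N` be a normal subgroup of `G` with `G ⧸ N` in `C` and let `N` be a Coxeter group, with a Coxeter
generating set `B` of any cardinality. Suppose that conjugation by each `g` in `G` acts on finitely
many generators at a time by a partial diagram isomorphism: for every finite `S ⊆ B` there are a map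
`σ : B → B` which preserves the entries of the Coxeter matrix on `S` and an element `n` of `N` with
`g * s * g⁻¹ = n * σ s * n⁻¹` for all `s` in `S`. Then `G` is in `C`.

For instance `N ⋊ Q` is in `C` for every `Q` in `C` which acts on an infinite Coxeter diagram, and also
every extension `G` of `N` such that `G` acts on `N` by diagram automorphisms up to (locally) inner
automorphisms.

Outline of the proof. By the realization criterion for partial conjugations it is enough to find, for
every finite subset `E` of `N` and every `g`, an embedding of the subgroup generated by `E` and
`g * E * g⁻¹` in a member of `C` in which the conjugation `E → g * E * g⁻¹` is induced by an inner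
automorphism. Finitely many generators are enough to write down `E`, `g * E * g⁻¹` and `n`. By the
extension property for partial automorphisms (for complete graphs with edges coloured by the entries
of the Coxeter matrix) the finite Coxeter matrix on these generators embeds in a finite Coxeter matrix
on which the partial isomorphism extends to an automorphism `τ`. By the faithful geometric
representation subsets of the generators generate Coxeter subgroups, so the Coxeter group `W` of the
larger matrix and `W ⋊ ⟨τ⟩` do the job; the latter has the finitely generated Coxeter group `W` as a
subgroup of finite index.
-/

set_option autoImplicit false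

namespace Pool.Agent.Results.MP_9d1ffa_al.CoxeterKernels

open Pool.Agent.Y110.FJ

theorem result (C : ∀ (G : Type) [Group G], Prop) (hC : ClosedE C)
    (hcox : ∀ (n : ℕ) (M : CoxeterMatrix (Fin n)), C M.Group)
    (G : Type) [Group G] (N : Subgroup G) [N.Normal] (hN : C (G ⧸ N))
    (B : Type) (M : CoxeterMatrix B) (cs : CoxeterSystem M N)
    (hg : ∀ (g : G) (S : Finset B), ∃ (σ : B → B) (n : N),
      (∀ i ∈ S, ∀ j ∈ S, M (σ i) (σ j) = M i j) ∧
      ∀ i ∈ S, g * (cs.simple i : G) * g⁻¹ = n * (cs.simple (σ i) : G) * (n : G)⁻¹) : C G :=
  Pool.Agent.T2H35.FJC.main hC hcox N hN M cs hg

end Pool.Agent.Results.MP_9d1ffa_al.CoxeterKernels
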