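import Pool.Agent.T2H65.GP.Mixed

/-!
# Extensions whose kernel is a graph product of finite groups and infinite cyclic groups

`C` is any class of groups with the closure properties `ClosedE C` which contains the groups `F ⋊ Z` for
all free groups `F` and the groups `A ⋊ Z` for all abelian groups `A`. All this is published for the class
of groups which satisfy the K- and L-theoretic Farrell–Jones conjecture with coefficients and finite
wreath products.

Let `N` be a normal subgroup of `G` which is the internal graph product, over a finite graph, of finite
groups and of infinite cyclic groups. If `G ⧸ N` is in `C`, then `G` is in `C`. There is no condition on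
the action of `G` on `N`. Such `N` are for instance the finitely generated right-angled Artin groups, the
finitely generated right-angled Coxeter groups, and the graph products of finitely generated abelian
groups over finite graphs (a finitely generated abelian group is itself a graph product of cyclic groups
over a complete graph).

Outline of the proof.

* By `MP_9d1ffa_al.GraphProductKernels` one may divide out the normal subgroup generated by the elements
  of finite order of `N`, after which all vertex groups are infinite cyclic: `N` is a right-angled Artin
  group. (For these and `G = N ⋊ Z` the theorem is due to Brück, Kielak and Wu, who use generators of the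
  automorphism group of `N`; here is a different proof, which does not use them.)
* By the theory of centralizers (a cyclically reduced element `x` of full support in a graph product over
  an irreducible graph has cyclic centralizer; proved with the action on the Bass–Serre tree of the
  splitting `N = St(v) *_{Lk(v)} N_{-v}`), the centralizers of the elements of `N` are, up to
  conjugation, `⟨x_1⟩ × ⋯ × ⟨x_k⟩ × ⟨T⟩`, `T` a set of vertices. The vertices whose star has the maximal
  cardinality are recognized by the minimal number of generators of the centralizer. Let `v` be one of
  them and `[v]` its class, the set of all `w` with `Lk(v) ⊆ St(w)` and `Lk(w) ⊆ St(v)`: the automorphisms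
  of `N` permute the normal closures in `N` of these classes.
* A subgroup of finite index in `G` normalizes the normal closure `K` of `[v]` in `N`. The group `K` is
  free, or its commutator subgroup is free: it is the kernel of a retraction, the free product of the
  conjugates of the group generated by `[v]`, which is free or free abelian. So one may divide out the
  commutator subgroup and then `K`, and the number of vertices goes down.
-/

set_option autoImplicit false

namespace Pool.Agent.Results.MP_9d1ffa_al.CyclicGraphProductKernels

open Pool.Agent.Y110.FJ Pool.Agent.T2H65.GP

theorem result (C : ∀ (G : Type) [Group G], Prop) (hC : ClosedE C)
    (hF : ∀ (X : Type) (α : MulAut (FreeGroup X)),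
      C (FreeGroup X ⋊[zpowersHom (MulAut (FreeGroup X)) α] Multiplicative ℤ))
    (hA : ∀ (A : Type) [CommGroup A] (α : MulAut A),
      C (A ⋊[zpowersHom (MulAut A) α] Multiplicative ℤ))
    (G V : Type) [Group G] [Finite V] (Λ : SimpleGraph V) (N : Subgroup G) [N.Normal]
    (A : V → Subgroup G) (hN : IsGraphProd Λ N A)
    (hv : ∀ v, Finite (A v) ∨ Nonempty (A v ≃* Multiplicative ℤ)) (hQ : C (G ⧸ N)) : C G :=
  mixed hC hF hA Λ N A hN hv hQ

end Pool.Agent.Results.MP_9d1ffa_al.CyclicGraphProductKernels
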