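import Pool.Agent.T2H65.GP.Tor

/-!
# Extensions whose kernel is a graph product of finite groups and torsion-free groups

`C` is any class of groups with the closure properties `ClosedE C` which contains the groups `F ⋊ Z` for
all free groups `F` and all automorphisms of `F`. All this is published for the class of groups which
satisfy the K- and L-theoretic Farrell–Jones conjecture with coefficients and finite wreath products.

Let `N` be a normal subgroup of `G` which is the internal graph product, over a finite graph, of
subgroups `A v`, each of which is finite or torsion-free, and let `M` be the normal subgroup of `G`
generated by the elements of finite order of `N`. If `G ⧸ M` is in `C`, then `G` is in `C`.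

If all `A v` are finite then `M = N`. So `C` is closed under extensions with kernel a graph product of
finite groups over a finite graph, for instance a right-angled Coxeter group; there is no condition on
the action of `G` on `N`.

Outline of the proof.

* Let `v` be a vertex, `W` the graph product of the other vertex groups and `L` the one of the
  vertex groups of the link of `v`. The graph product `P` is the semidirect product of the free product
  of copies of `A v` indexed by `W ⧸ L` and of `W`, which permutes the factors. A subgroup of `P` on
  which the syllable length of the first component is bounded is conjugate into `W` or into
  `A v × L`.
* By induction `N` has only finitely many conjugacy classes of finite subgroups, and graph products of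
  torsion-free groups are torsion-free. So `M` is generated by the conjugates of the finite `A v`, and a
  subgroup `G₁` of finite index in `G` preserves the `N`-conjugacy classes of all finite `A v`.
* The kernel of the retraction of `N` to the graph product of the vertex groups other than `A v` is the
  free product of conjugates of `A v`, and `G₁` permutes the conjugacy classes of the factors. The
  groups `A v ⟨g⟩` are virtually cyclic. By the theorem on extensions by free products
  (`MP_490288_al.FreeProductExtensions`) one may divide out this kernel, and `G₁` is in `C` by induction.
-/

set_option autoImplicit false

namespace Pool.Agent.Results.MP_9d1ffa_al.GraphProductKernels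

open Pool.Agent.Y110.FJ Pool.Agent.T2H65.GP

theorem result (C : ∀ (G : Type) [Group G], Prop) (hC : ClosedE C)
    (hF : ∀ (X : Type) (α : MulAut (FreeGroup X)),
      C (FreeGroup X ⋊[zpowersHom (MulAut (FreeGroup X)) α] Multiplicative ℤ))
    (G V : Type) [Group G] [Finite V] (Λ : SimpleGraph V) (N : Subgroup G) [N.Normal]
    (A : V → Subgroup G) (hA : IsGraphProd Λ N A)
    (hv : ∀ v, Finite (A v) ∨ ∀ x ∈ A v, IsOfFinOrder x → x = 1)
    (hQ : C (G ⧸ Subgroup.normalClosure {x : G | x ∈ N ∧ IsOfFinOrder x})) : C G :=
  main_tor hC hF Λ N inferInstance A hA hv hQ

end Pool.Agent.Results.MP_9d1ffa_al.GraphProductKernels
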